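import Pool.Agent.Q94.LHMain

/-!
# No energy depending only on the logarithmic distortion is Legendre-Hadamard elliptic

Along the rank-one line `F + t ξ ⊗ η`, `F = diag(e¹², 1, e⁻¹²)`, `ξ = (e⁶, √2, e⁻⁶)`,
`η = (e⁶, -√2, e⁻⁶)`, the determinant is constantly `1`, `K = 288` at `t = 0` and `K ≤ 273.4` at
`t = ±1`, while ellipticity at the diagonal matrices forces `W` to be strictly increasing.
-/

open Q94.LH

theorem Pool.Agent.Results.MP_e7e597_an.NoEllipticEnergy.result :
    ∀ W : ℝ → ℝ, ContinuousOn W (Set.Ici 0) → ¬ LHElliptic W :=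
  fun _ hW => not_LH hW
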